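import Pool.Agent.Y843.HS.Top
import Pool.Agent.Y843.HG.VGold

/-!
# Narrow progressions in arbitrary sets of rough (or prime) tuples with a fixed pattern, in every interval

From Szemerédi's theorem relative to sifted sets with narrow progressions (`Pool.Agent.Y843.HS.fin`) of the
starting library.
-/

set_option autoImplicit false

open Finset Filter

namespace Pool.Agent.Q45.Tup

open Pool.Agent.Y843.HS (Pr VV Pr_mem Pr_prime)
open Pool.Agent.Y843.HG (V1 V1_bounds V1_pos fac1)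

/-- `p` is one of the terms of a `k`-term arithmetic progression of elements of `S` with a difference
between `1` and `D`. -/
def OnAP (k : ℕ) (D : ℝ) (S : Finset ℕ) (p : ℕ) : Prop :=
  ∃ a d : ℕ, 1 ≤ d ∧ (d : ℝ) ≤ D ∧ (∀ j < k, a + j * d ∈ S) ∧ ∃ j < k, p = a + j * d

/-- the classes of the integers `n` such that `q` divides `n + h` for some `h ∈ H` -/
def Z (H : Finset ℕ) (q : ℕ) : Finset ℕ := H.image (fun h => (q - h % q) % q)

lemma mod_mem_Z {H : Finset ℕ} {q n : ℕ} (hq : 0 < q) : n % q ∈ Z H q ↔ ∃ h ∈ H, q ∣ n + h := by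
  unfold Z
  rw [mem_image]
  constructor
  · rintro ⟨h, hh, h1⟩
    refine ⟨h, hh, ?_⟩
    have e2 : q - h % q + h = q + q * (h / q) := by
      have := Nat.div_add_mod h q
      have := Nat.mod_lt h hq
      omega
    have h2 : (n + h) % q = (q - h % q + h) % q := by
      rw [Nat.add_mod, ← h1, ← Nat.add_mod]
    rw [e2] at h2
    exact Nat.dvd_of_mod_eq_zero (h2.trans (Nat.mod_eq_zero_of_dvd ⟨1 + h / q, by ring⟩))
  · rintro ⟨h, hh, h1⟩
    refine ⟨h, hh, ?_⟩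
    have e2 : q - h % q + h = q + q * (h / q) := by
      have := Nat.div_add_mod h q
      have := Nat.mod_lt h hq
      omega
    have h2 : ((q - h % q) + h) % q = (n + h) % q := by
      rw [Nat.mod_eq_zero_of_dvd h1, e2]
      exact Nat.mod_eq_zero_of_dvd ⟨1 + h / q, by ring⟩
    exact Nat.ModEq.add_right_cancel' h h2

lemma Z_lt {H : Finset ℕ} {q c : ℕ} (hq : 0 < q) (hc : c ∈ Z H q) : c < q := by
  unfold Z at hc
  rw [mem_image] at hc
  obtain ⟨h, _, rfl⟩ := hc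
  exact Nat.mod_lt _ hq

lemma Z_card_lt {H : Finset ℕ} {q : ℕ} (hq : 0 < q) (h : ∃ m : ℕ, ∀ h ∈ H, ¬ q ∣ m + h) : (Z H q).card < q := by
  obtain ⟨m, hm⟩ := h
  have h1 : Z H q ⊆ (range q).erase (m % q) := by
    intro c hc
    rw [mem_erase, mem_range]
    refine ⟨?_, Z_lt hq hc⟩
    rintro rfl
    obtain ⟨h, hh, hd⟩ := (mod_mem_Z hq).1 hc
    exact hm h hh hd
  have h2 := card_le_card h1
  rw [card_erase_of_mem (mem_range.2 (Nat.mod_lt _ hq)), card_range] at h2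
  omega

/-- a pattern which covers all classes modulo `q` has at least `q` elements -/
lemma Z_card_le {H : Finset ℕ} {q : ℕ} (hq : 0 < q) (h : ∀ m : ℕ, ∃ h ∈ H, q ∣ m + h) : q ≤ H.card := by
  have h1 : range q ⊆ Z H q := by
    intro c hc
    rw [mem_range] at hc
    have := (mod_mem_Z (H := H) hq).2 (h c)
    rwa [Nat.mod_eq_of_lt hc] at this
  have h2 := card_le_card h1
  rw [card_range] at h2
  exact h2.trans card_image_le

/-- The uniform form: `H` may depend on `X`. -/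
theorem unif (k r : ℕ) (hk : 1 ≤ k) (κ δ : ℝ) (hκ : 0 < κ) (hδ : 0 < δ) : ∃ D X₀ : ℕ, ∀ X : ℕ, X₀ ≤ X → ∀ A : ℕ,
    ∀ H : Finset ℕ, H.card ≤ r → (∀ q : ℕ, q.Prime → ∃ m : ℕ, ∀ h ∈ H, ¬ q ∣ m + h) →
    ∀ S : Finset ℕ, (∀ n ∈ S, A < n ∧ n ≤ A + X ∧ ∀ h ∈ H, ∀ q : ℕ, q.Prime → (q : ℝ) ≤ (X : ℝ) ^ κ → ¬ q ∣ n + h) →
      (Set.ncard {n : ℕ | n ∈ S ∧ ¬ OnAP k (Real.log X ^ D) S n} : ℝ) ≤ δ * X * VV (Z H) 0 ⌊(X : ℝ) ^ κ⌋₊ := by
  classical
  obtain ⟨D, X₁, h1⟩ := Pool.Agent.Y843.HS.fin k r κ δ hκ hδ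
  refine ⟨D, X₁, fun X hX A H hH hadm S hS => ?_⟩
  set Bd := S.filter (fun p => ¬ OnAP k (Real.log X ^ D) S p) with hBd
  have hset : {p : ℕ | p ∈ S ∧ ¬ OnAP k (Real.log X ^ D) S p} = (Bd : Set ℕ) := by
    ext p
    rw [hBd]
    simp
  rw [hset, Set.ncard_coe_finset]
  by_contra hcon
  push Not at hcon
  obtain ⟨a, d, hd1, hd2, hd3⟩ := h1 X A hX (Z H) (fun p hp _ =>
      ⟨(card_image_le).trans hH, Z_card_lt hp.pos (hadm p hp), fun c hc => Z_lt hp.pos hc⟩) Bd (by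
      intro n hn
      rw [hBd, mem_filter] at hn
      have := hS n hn.1
      rw [mem_Ioc]
      exact ⟨this.1, this.2.1⟩) (by
      intro n hn p hp hpX hc
      rw [hBd, mem_filter] at hn
      obtain ⟨h, hh, hd⟩ := (mod_mem_Z hp.pos).1 hc
      exact (hS n hn.1).2.2 h hh p hp hpX hd) hcon.le
  have ha := hd3 0 hk
  rw [zero_mul, add_zero, hBd, mem_filter] at ha
  apply ha.2
  refine ⟨a, d, hd1, hd2, fun j hj => ?_, 0, hk, by simp⟩
  have := hd3 j hj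
  rw [hBd, mem_filter] at this
  exact this.1

/-! ### the sieve product of a fixed pattern -/

lemma Z_card_of_large {H : Finset ℕ} {q : ℕ} (hq : ∀ h ∈ H, h < q) : (Z H q).card = H.card := by
  unfold Z
  apply card_image_of_injOn
  intro x hx y hy hxy
  have hx1 := hq x hx
  have hy1 := hq y hy
  simp only [Nat.mod_eq_of_lt hx1, Nat.mod_eq_of_lt hy1] at hxy
  rcases Nat.eq_zero_or_pos x with rfl | hx0
  · rcases Nat.eq_zero_or_pos y with rfl | hy0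
    · rfl
    · rw [Nat.sub_zero, Nat.mod_self, Nat.mod_eq_of_lt (by omega)] at hxy
      omega
  · rcases Nat.eq_zero_or_pos y with rfl | hy0
    · rw [Nat.sub_zero, Nat.mod_self, Nat.mod_eq_of_lt (by omega)] at hxy
      omega
    · rw [Nat.mod_eq_of_lt (by omega), Nat.mod_eq_of_lt (by omega)] at hxy
      omega

lemma VV_le (H : Finset ℕ) : ∃ C : ℝ, 0 < C ∧ ∀ y : ℕ, VV (Z H) 0 y ≤ C * V1 y ^ H.card := by
  classical
  obtain ⟨M, hM⟩ : ∃ M : ℕ, ∀ h ∈ H, h ≤ M := ⟨H.sup id, fun h hh => Finset.le_sup (f := id) hh⟩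
  set k := H.card with hk
  have hVM := V1_pos M
  refine ⟨(V1 M ^ k)⁻¹, by positivity, fun y => ?_⟩
  have hfac : ∀ p ∈ Pr 0 y, 0 ≤ 1 - ((Z H p).card : ℝ) / p := fun p hp =>
    Pool.Agent.Y843.HS.one_sub_nonneg (fun c hc => Z_lt (Pr_prime hp).pos hc)
  have hle : ∀ p ∈ Pr 0 y, 1 - ((Z H p).card : ℝ) / p ≤
      (1 - 1 / (p : ℝ)) ^ k * (if p ≤ M then ((1 - 1 / (p : ℝ)) ^ k)⁻¹ else 1) := by
    intro p hp
    have hp' := Pr_prime hp
    obtain ⟨hf1, hf2⟩ := fac1 hp'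
    have hpos : 0 < 1 - 1 / (p : ℝ) := by linarith
    split_ifs with h
    · rw [mul_inv_cancel₀ (by positivity)]
      have : (0 : ℝ) ≤ ((Z H p).card : ℝ) / p := by positivity
      linarith
    · rw [mul_one, Z_card_of_large (fun x hx => by have := hM x hx; omega)]
      have h1 := one_add_mul_le_pow (a := -(1 / (p : ℝ))) (by linarith) k
      rw [← hk]
      calc 1 - (k : ℝ) / p = 1 + (k : ℝ) * -(1 / (p : ℝ)) := by ring
        _ ≤ (1 + -(1 / (p : ℝ))) ^ k := h1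
        _ = _ := by ring
  have h1 := prod_le_prod hfac hle
  rw [prod_mul_distrib, prod_pow] at h1
  have h2 : ∏ p ∈ Pr 0 y, (if p ≤ M then ((1 - 1 / (p : ℝ)) ^ k)⁻¹ else 1) ≤ (V1 M ^ k)⁻¹ := by
    rw [← prod_filter]
    unfold V1
    rw [← prod_pow, ← prod_inv_distrib]
    apply prod_le_prod_of_subset_of_one_le
    · intro p hp
      rw [mem_filter, Pr_mem] at hp
      rw [Pr_mem]
      exact ⟨⟨hp.1.1.1, hp.2⟩, hp.1.2⟩
    · intro p hp
      have := fac1 (Pr_prime (mem_filter.1 hp).1)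
      have hpos : 0 < 1 - 1 / (p : ℝ) := by linarith
      positivity
    · intro p hp _
      obtain ⟨hf1, hf2⟩ := fac1 (Pr_prime hp)
      have hpos : 0 < 1 - 1 / (p : ℝ) := by linarith
      rw [one_le_inv₀ (by positivity)]
      exact pow_le_one₀ hpos.le hf2
  have hV1 : 0 ≤ V1 y ^ k := (pow_pos (V1_pos y) k).le
  calc VV (Z H) 0 y ≤ V1 y ^ k * _ := h1
    _ ≤ V1 y ^ k * (V1 M ^ k)⁻¹ := mul_le_mul_of_nonneg_left h2 hV1
    _ = _ := mul_comm _ _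

/-- `V1 ⌊X ^ κ⌋ ≤ C / log X` -/
lemma V1_floor (κ : ℝ) (hκ : 0 < κ) : ∃ C : ℝ, 0 < C ∧ ∃ X₀ : ℕ, ∀ X : ℕ, X₀ ≤ X →
    V1 ⌊(X : ℝ) ^ κ⌋₊ ≤ C / Real.log X := by
  obtain ⟨c, C, hc, hC, hV⟩ := V1_bounds
  refine ⟨2 * C / κ, by positivity, ?_⟩
  have h1 : Tendsto (fun X : ℕ => (X : ℝ) ^ κ) atTop atTop :=
    (tendsto_rpow_atTop hκ).comp tendsto_natCast_atTop_atTop
  obtain ⟨X₀, h2⟩ := eventually_atTop.1 (h1.eventually (eventually_ge_atTop 4))
  refine ⟨max X₀ 2, fun X hX => ?_⟩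
  have hX2 : 2 ≤ X := (le_max_right _ _).trans hX
  have h4 := h2 X ((le_max_left _ _).trans hX)
  have hlX : 0 < Real.log X := Real.log_pos (by exact_mod_cast (by omega : 1 < X))
  set y := ⌊(X : ℝ) ^ κ⌋₊ with hy
  have hy4 : 4 ≤ y := Nat.le_floor (by exact_mod_cast h4)
  have hyr : (4 : ℝ) ≤ y := by exact_mod_cast hy4
  have hly : κ * Real.log X / 2 ≤ Real.log y := by
    have h3 : (X : ℝ) ^ κ < y + 1 := Nat.lt_floor_add_one _
    have h5 : (X : ℝ) ^ κ ≤ (y : ℝ) ^ 2 := by nlinarith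
    have h6 := Real.log_le_log (by linarith) h5
    rw [Real.log_rpow (by exact_mod_cast (by omega : 0 < X)), Real.log_pow] at h6
    push_cast at h6
    linarith
  have h5 := (hV y (by omega)).2
  refine h5.trans ?_
  rw [div_le_div_iff₀ (by nlinarith [mul_pos hκ hlX]) hlX]
  have h6 : C * (κ * Real.log X) ≤ C * (2 * Real.log y) := mul_le_mul_of_nonneg_left (by linarith) hC.le
  have h7 : C * Real.log X = C * (κ * Real.log X) / κ := by field_simp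
  rw [h7, show 2 * C / κ * Real.log y = C * (2 * Real.log y) / κ by ring]
  exact div_le_div_of_nonneg_right h6 hκ.le

/-- **Rough tuples**: all elements of any set of `X ^ κ`-rough tuples, with at most `δ X / log ^ r X` exceptions, lie on
narrow progressions. -/
theorem rough (H : Finset ℕ) (hadm : ∀ q : ℕ, q.Prime → ∃ m : ℕ, ∀ h ∈ H, ¬ q ∣ m + h) (k : ℕ) (hk : 1 ≤ k)
    (κ δ : ℝ) (hκ : 0 < κ) (hδ : 0 < δ) : ∃ D X₀ : ℕ, ∀ X : ℕ, X₀ ≤ X → ∀ A : ℕ,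
    ∀ S : Finset ℕ, (∀ n ∈ S, A < n ∧ n ≤ A + X ∧ ∀ h ∈ H, ∀ q : ℕ, q.Prime → q ∣ n + h → (X : ℝ) ^ κ < q) →
      (Set.ncard {n : ℕ | n ∈ S ∧ ¬ OnAP k (Real.log X ^ D) S n} : ℝ) ≤ δ * (X / Real.log X ^ H.card) := by
  obtain ⟨C, hC, hVV⟩ := VV_le H
  obtain ⟨C1, hC1, X₁, hV1⟩ := V1_floor κ hκ
  obtain ⟨D, X₂, h⟩ := unif k H.card hk κ (δ / (C * C1 ^ H.card)) hκ (by positivity)
  refine ⟨D, max (max X₁ X₂) 2, fun X hX A S hS => ?_⟩
  have hX1 : X₁ ≤ X := (le_max_left _ _).trans ((le_max_left _ _).trans hX)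
  have hX2 : X₂ ≤ X := (le_max_right _ _).trans ((le_max_left _ _).trans hX)
  have hX3 : 2 ≤ X := (le_max_right _ _).trans hX
  have hlX : 0 < Real.log X := Real.log_pos (by exact_mod_cast (by omega : 1 < X))
  have h1 := h X hX2 A H le_rfl hadm S (fun n hn => ⟨(hS n hn).1, (hS n hn).2.1, fun h hh q hq hqX hd =>
    absurd ((hS n hn).2.2 h hh q hq hd) (not_lt.2 hqX)⟩)
  refine h1.trans ?_
  have h2 : VV (Z H) 0 ⌊(X : ℝ) ^ κ⌋₊ ≤ C * (C1 / Real.log X) ^ H.card :=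
    (hVV _).trans (mul_le_mul_of_nonneg_left (pow_le_pow_left₀ (V1_pos _).le (hV1 X hX1) _) hC.le)
  calc δ / (C * C1 ^ H.card) * X * VV (Z H) 0 ⌊(X : ℝ) ^ κ⌋₊
      ≤ δ / (C * C1 ^ H.card) * X * (C * (C1 / Real.log X) ^ H.card) :=
        mul_le_mul_of_nonneg_left h2 (by positivity)
    _ = δ * (X / Real.log X ^ H.card) := by
        rw [div_pow]
        field_simp

/-- `X ^ (1 / 2) ≤ δ X / log ^ r X` for all large `X` -/
lemma sqrt_small (r : ℕ) (δ : ℝ) (hδ : 0 < δ) : ∃ X₀ : ℕ, ∀ X : ℕ, X₀ ≤ X →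
    (X : ℝ) ^ (1 / 2 : ℝ) ≤ δ * (X / Real.log X ^ r) := by
  have h2 : Tendsto (fun x : ℝ => Real.log x ^ r / x ^ (1 / 2 : ℝ)) atTop (nhds 0) := by
    have h3 := isLittleO_log_rpow_rpow_atTop (s := 1 / 2) (r : ℝ) (show (0 : ℝ) < 1 / 2 by norm_num)
    have h4 := h3.tendsto_div_nhds_zero
    refine h4.congr fun x => ?_
    congr 1
    exact Real.rpow_natCast (Real.log x) r
  have h3 := (h2.comp tendsto_natCast_atTop_atTop).eventually (eventually_lt_nhds hδ)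
  obtain ⟨X₁, h4⟩ := eventually_atTop.1 h3
  refine ⟨max X₁ 3, fun X hX => ?_⟩
  have hX := h4 X ((le_max_left _ _).trans hX)
  have hX3 : 3 ≤ X := (le_max_right _ _).trans ‹_›
  have hX0 : (0 : ℝ) < X := by exact_mod_cast (by omega : 0 < X)
  have hl : 0 < Real.log X := Real.log_pos (by exact_mod_cast (by omega : 1 < X))
  simp only [Function.comp] at hX
  have hp : (0 : ℝ) < (X : ℝ) ^ (1 / 2 : ℝ) := by positivity
  rw [div_lt_iff₀ hp] at hX
  have h5 : (X : ℝ) ^ (1 / 2 : ℝ) * (X : ℝ) ^ (1 / 2 : ℝ) = X := by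
    rw [← Real.rpow_add hX0]
    norm_num
  rw [← mul_div_assoc, le_div_iff₀ (by positivity)]
  calc (X : ℝ) ^ (1 / 2 : ℝ) * Real.log X ^ r ≤ (X : ℝ) ^ (1 / 2 : ℝ) * (δ * (X : ℝ) ^ (1 / 2 : ℝ)) :=
        mul_le_mul_of_nonneg_left hX.le hp.le
    _ = δ * ((X : ℝ) ^ (1 / 2 : ℝ) * (X : ℝ) ^ (1 / 2 : ℝ)) := by ring
    _ = δ * X := by rw [h5]

/-- the elements of `S` outside progressions: those `≤ X ^ (1 / 2)` and the bad elements of the rest -/
lemma bad_split (k : ℕ) (D : ℝ) (S : Finset ℕ) (y : ℝ) (hy : 0 ≤ y) :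
    (Set.ncard {n : ℕ | n ∈ S ∧ ¬ OnAP k D S n} : ℝ) ≤
      Set.ncard {n : ℕ | n ∈ S.filter (fun n : ℕ => y < n) ∧ ¬ OnAP k D (S.filter (fun n : ℕ => y < n)) n} +
        (y + 1) := by
  classical
  set S' := S.filter (fun n : ℕ => y < n) with hS'
  have hfin : {n : ℕ | n ∈ S' ∧ ¬ OnAP k D S' n}.Finite := S'.finite_toSet.subset (fun n hn => hn.1)
  have hsub : {n : ℕ | n ∈ S ∧ ¬ OnAP k D S n} ⊆
      {n : ℕ | n ∈ S' ∧ ¬ OnAP k D S' n} ∪ ((range (⌊y⌋₊ + 1) : Finset ℕ) : Set ℕ) := by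
    rintro n ⟨h1, h2⟩
    by_cases hn : y < n
    · left
      refine ⟨mem_filter.2 ⟨h1, hn⟩, ?_⟩
      rintro ⟨a, d, h3, h4, h5, h6⟩
      exact h2 ⟨a, d, h3, h4, fun j hj => (mem_filter.1 (h5 j hj)).1, h6⟩
    · right
      rw [mem_coe, mem_range]
      have := Nat.le_floor (not_lt.1 hn)
      omega
  have h1 := Set.ncard_le_ncard hsub (hfin.union (finite_toSet _))
  have h2 := Set.ncard_union_le {n : ℕ | n ∈ S' ∧ ¬ OnAP k D S' n} ((range (⌊y⌋₊ + 1) : Finset ℕ) : Set ℕ)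
  rw [Set.ncard_coe_finset, card_range] at h2
  have h3 : (Set.ncard {n : ℕ | n ∈ S ∧ ¬ OnAP k D S n} : ℝ) ≤
      ((Set.ncard {n : ℕ | n ∈ S' ∧ ¬ OnAP k D S' n} + (⌊y⌋₊ + 1) : ℕ) : ℝ) := by exact_mod_cast h1.trans h2
  refine h3.trans ?_
  push_cast
  have := Nat.floor_le hy
  linarith

/-- **Prime tuples**: all elements of any set of prime tuples in an interval of length `X`, with at most
`δ X / log ^ r X` exceptions, lie on narrow progressions. -/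
theorem primes (H : Finset ℕ) (hadm : ∀ q : ℕ, q.Prime → ∃ m : ℕ, ∀ h ∈ H, ¬ q ∣ m + h) (k : ℕ) (hk : 1 ≤ k)
    (δ : ℝ) (hδ : 0 < δ) : ∃ D X₀ : ℕ, ∀ X : ℕ, X₀ ≤ X → ∀ A : ℕ,
    ∀ S : Finset ℕ, (∀ n ∈ S, A < n ∧ n ≤ A + X ∧ ∀ h ∈ H, (n + h).Prime) →
      (Set.ncard {n : ℕ | n ∈ S ∧ ¬ OnAP k (Real.log X ^ D) S n} : ℝ) ≤ δ * (X / Real.log X ^ H.card) := by
  classical
  obtain ⟨D, X₁, h⟩ := rough H hadm k hk (1 / 2) (δ / 2) (by norm_num) (by positivity)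
  obtain ⟨X₂, h2⟩ := sqrt_small H.card (δ / 4) (by positivity)
  refine ⟨D, max (max X₁ X₂) 1, fun X hX A S hS => ?_⟩
  have hX1 : X₁ ≤ X := (le_max_left _ _).trans ((le_max_left _ _).trans hX)
  have hX2 : X₂ ≤ X := (le_max_right _ _).trans ((le_max_left _ _).trans hX)
  have hX3 : 1 ≤ X := (le_max_right _ _).trans hX
  have h3 := h2 X hX2
  have h4 := bad_split k (Real.log X ^ D) S ((X : ℝ) ^ (1 / 2 : ℝ)) (by positivity)
  have h5 := h X hX1 A (S.filter (fun n : ℕ => (X : ℝ) ^ (1 / 2 : ℝ) < n)) (by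
    intro n hn
    rw [mem_filter] at hn
    obtain ⟨h6, h7⟩ := hn
    obtain ⟨h8, h9, h10⟩ := hS n h6
    refine ⟨h8, h9, fun h hh q hq hd => ?_⟩
    have := (Nat.prime_dvd_prime_iff_eq hq (h10 h hh)).1 hd
    rw [this]
    push_cast
    have : (0 : ℝ) ≤ h := Nat.cast_nonneg h
    linarith)
  have h6 : (1 : ℝ) ≤ (X : ℝ) ^ (1 / 2 : ℝ) := Real.one_le_rpow (by exact_mod_cast hX3) (by norm_num)
  linarith

end Pool.Agent.Q45.Tup
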