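import Pool.Agent.Y816.PD.UniS2

/-!
# Consecutive rough numbers in a given admissible pattern, with restricted digits, near every base point
-/

set_option autoImplicit false

namespace Pool.Agent.Q45.Tup.Dig

open Finset Filter
open Pool.Agent.Y816.PD

/-- The `i`-th digit of `j` in base `g` (counted from the right, beginning with `0`) belongs to `A i` for all `i < K`. -/
def HasDigits (g K : ℕ) (A : ℕ → Finset ℕ) (j : ℕ) : Prop := ∀ i < K, j / g ^ i % g ∈ A i

/-- The number of the choices of `K` digits in the sets `A i`. -/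
def choices (K : ℕ) (A : ℕ → Finset ℕ) : ℕ := ∏ i ∈ range K, (A i).card

/-- All prime factors of `m` are larger than `y ^ (1 / r)`. -/
def Rough (y r m : ℕ) : Prop := ∀ p : ℕ, p.Prime → p ∣ m → y < p ^ r

/-- The set `H` is admissible: it misses a residue class modulo every prime. -/
def Admissible (H : Finset ℕ) : Prop := ∀ p : ℕ, p.Prime → ∃ m : ℕ, ∀ h ∈ H, ¬ p ∣ m + h

/-- The rough numbers (all prime factors larger than `y ^ (1 / r)`) in `[n, n + L]` are exactly the `n + h`, `h ∈ H`,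
and these have at most `r` prime factors (counted with multiplicity). -/
def Realises (H : Finset ℕ) (L y r n : ℕ) : Prop :=
  (∀ h ∈ H, Rough y r (n + h) ∧ (n + h).primeFactorsList.length ≤ r) ∧ ∀ e ≤ L, e ∉ H → ¬ Rough y r (n + e)

open Classical in
/-- The number of the `j < g ^ K` with digits in the `A i`, which have the property `P`. -/
noncomputable def count (g K : ℕ) (A : ℕ → Finset ℕ) (P : ℕ → Prop) : ℕ :=
  ((range (g ^ K)).filter fun j => HasDigits g K A j ∧ P j).card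

lemma ND_eq_count (g K : ℕ) (A : ℕ → Finset ℕ) (S : Set ℕ) : ND g K A S = count g K A (fun j => j ∈ S) := by
  classical
  unfold ND count HasDigits
  congr 1
  ext j
  simp only [mem_filter]

lemma count_mono {g K : ℕ} {A : ℕ → Finset ℕ} {P Q : ℕ → Prop} (h : ∀ j < g ^ K, P j → Q j) :
    count g K A P ≤ count g K A Q := by
  classical
  unfold count
  apply card_le_card
  intro n hn
  have h1 := mem_filter.1 hn
  exact mem_filter.2 ⟨h1.1, h1.2.1, h n (mem_range.1 h1.1) h1.2.2⟩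

lemma count_or {g K : ℕ} {A : ℕ → Finset ℕ} {P Q R : ℕ → Prop} (h : ∀ j < g ^ K, P j → Q j ∨ R j) :
    count g K A P ≤ count g K A Q + count g K A R := by
  classical
  unfold count
  refine le_trans (card_le_card ?_) (card_union_le _ _)
  intro n hn
  have h1 := mem_filter.1 hn
  rcases h n (mem_range.1 h1.1) h1.2.2 with h2 | h2
  · exact mem_union_left _ (mem_filter.2 ⟨h1.1, h1.2.1, h2⟩)
  · exact mem_union_right _ (mem_filter.2 ⟨h1.1, h1.2.1, h2⟩)

lemma choices_eq (K : ℕ) (A : ℕ → Finset ℕ) : (choices K A : ℝ) = NA K A := by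
  unfold choices NA
  push_cast
  rfl

/-- A prime which prevents a set from being admissible is at most the number of its elements. -/
lemma le_card {H : Finset ℕ} {p : ℕ} (hp : p.Prime) (h : ∀ m : ℕ, ∃ e ∈ H, p ∣ m + e) : p ≤ H.card := by
  have : Fact p.Prime := ⟨hp⟩
  have h1 : Function.Surjective fun e : H => ((e : ℕ) : ZMod p) := by
    intro x
    obtain ⟨e, he, hd⟩ := h (-x).val
    refine ⟨⟨e, he⟩, ?_⟩
    have h2 := (ZMod.natCast_eq_zero_iff _ _).2 hd
    push_cast at h2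
    rw [ZMod.natCast_zmod_val] at h2
    simp only
    linear_combination h2
  have h2 := Fintype.card_le_of_surjective _ h1
  rwa [ZMod.card, Fintype.card_coe] at h2

/-- the almost prime tuples without a rough number at the places of `E` -/
def SG2 (H E : Finset ℕ) (N r y z : ℕ) : Set ℕ := {j | (j < y ∧ j ∈ ST H N r y z) ∧ ∀ e ∈ E, ¬ Rough y r (N + j + e)}

lemma SG2_step (H E : Finset ℕ) (e N r y z : ℕ) (j : ℕ) (hj : j ∈ SG2 H E N r y z) :
    j ∈ SG2 H (insert e E) N r y z ∨ j ∈ SR (insert e H) N r := by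
  obtain ⟨⟨h1, h2⟩, h3⟩ := hj
  by_cases hp : Rough y r (N + j + e)
  · right
    intro h hh p hpp hd
    rw [mem_insert] at hh
    rcases hh with rfl | hh
    · exact h1.trans (hp p hpp hd)
    · exact h1.trans ((h2.2 h hh).1 p hpp hd)
  · left
    refine ⟨⟨h1, h2⟩, fun e' he' => ?_⟩
    rw [mem_insert] at he'
    rcases he' with rfl | he'
    · exact hp
    · exact h3 e' he'

theorem uni_gap2 (H : Finset ℕ) (hadm : ∀ p : ℕ, p.Prime → ∃ m : ℕ, ∀ h ∈ H, ¬ p ∣ m + h) (k : ℕ)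
    (hk : H.card = k) (hk1 : 1 ≤ k) (D : ℕ) (E : Finset ℕ) (hE : ∀ e ∈ E, e ∉ H ∧
      ∀ p : ℕ, p.Prime → ∃ m : ℕ, ∀ h ∈ insert e H, ¬ p ∣ m + h) :
    ∃ c : ℝ, 0 < c ∧ ∃ r0 : ℕ, 2 ≤ r0 ∧ ∀ r : ℕ, r0 ≤ r → ∀ b : ℕ, 2 ≤ b → ∃ κ C : ℝ, 0 < κ ∧ 0 < C ∧
      ∀ᶠ K : ℕ in atTop, ∀ N : ℕ, N ≤ b ^ (D * K) → ∀ A : ℕ → Finset ℕ, (∀ i < K, A i ⊆ range b) →
        (b : ℝ) ^ K ≤ Real.exp (c * K) * NA K A →
        ((∃ d ∈ A 0, ∀ h ∈ H, (N + d + h).Coprime b) → (∃ d ∈ A (K - 1), d ≠ 0) →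
          κ * NA K A / (K : ℝ) ^ k ≤ ND b K A (SG2 H E N r (b ^ K) (b ^ (K - 1)))) ∧
        (ND b K A (SR H N r) : ℝ) ≤ C * NA K A / (K : ℝ) ^ k := by
  classical
  induction E using Finset.induction_on with
  | empty =>
    obtain ⟨c, hc, r0, hr0, h⟩ := uni_shift H hadm k hk hk1 D
    refine ⟨c, hc, r0, hr0, fun r hr b hb => ?_⟩
    obtain ⟨κ, C, hκ, hC, h1⟩ := h r hr b hb
    refine ⟨κ, C, hκ, hC, ?_⟩
    filter_upwards [h1] with K hK N hN A hA hprod
    obtain ⟨h2, h3⟩ := hK N hN A hA hprod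
    refine ⟨fun hd htop => (h2 hd htop).trans ?_, h3⟩
    apply Nat.cast_le.2
    exact ND_mono' (fun j hjK hj => ⟨⟨hjK, hj⟩, fun e he => absurd he (notMem_empty e)⟩)
  | insert e E he ih =>
    obtain ⟨c1, hc1, r1, hr1, h⟩ := ih (fun e' he' => hE e' (mem_insert_of_mem he'))
    obtain ⟨heH, headm⟩ := hE e (mem_insert_self e E)
    obtain ⟨c2, hc2, r2, hr2, h'⟩ := uni_shift (insert e H) headm (k + 1)
      (by rw [card_insert_of_notMem heH, hk]) (by omega) D
    refine ⟨min c1 c2, lt_min hc1 hc2, max r1 r2, hr1.trans (le_max_left _ _), fun r hr b hb => ?_⟩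
    obtain ⟨κ, C, hκ, hC, h1⟩ := h r ((le_max_left _ _).trans hr) b hb
    obtain ⟨κ2, C2, hκ2, hC2, h2⟩ := h' r ((le_max_right _ _).trans hr) b hb
    refine ⟨κ / 2, C, by positivity, hC, ?_⟩
    filter_upwards [h1, h2, remove (C := C2) hκ k] with K hK1 hK2 hK3 N hN A hA hprod
    have hNA := NA_nonneg K A
    have hexp : ∀ c : ℝ, min c1 c2 ≤ c → (b : ℝ) ^ K ≤ Real.exp (c * K) * NA K A := by
      intro c hc
      refine hprod.trans (mul_le_mul_of_nonneg_right ?_ hNA)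
      apply Real.exp_le_exp.2
      exact mul_le_mul_of_nonneg_right hc (Nat.cast_nonneg _)
    obtain ⟨e1, e2⟩ := hK1 N hN A hA (hexp c1 (min_le_left _ _))
    obtain ⟨-, e3⟩ := hK2 N hN A hA (hexp c2 (min_le_right _ _))
    refine ⟨fun hd htop => ?_, e2⟩
    exact hK3 b A (SG2 H E N r (b ^ K) (b ^ (K - 1))) (SG2 H (insert e E) N r (b ^ K) (b ^ (K - 1)))
      (SR (insert e H) N r) (SG2_step H E e N r (b ^ K) (b ^ (K - 1))) (e1 hd htop) e3

/-- **Consecutive rough numbers in every admissible pattern, near every base point and with restricted digits.** -/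
theorem consec (H : Finset ℕ) (h0 : H.Nonempty) (hH : Admissible H) (L E : ℕ) :
    ∃ c : ℝ, 0 < c ∧ ∃ r₀ : ℕ, 2 ≤ r₀ ∧ ∀ r : ℕ, r₀ ≤ r → ∀ g : ℕ, 2 ≤ g → ∃ κ C : ℝ, 0 < κ ∧ 0 < C ∧
      ∀ᶠ K : ℕ in atTop, ∀ N : ℕ, N ≤ g ^ (E * K) →
        ∀ A : ℕ → Finset ℕ, (∀ i < K, A i ⊆ range g) → (g : ℝ) ^ K ≤ Real.exp (c * K) * choices K A →
          ((∃ d ∈ A 0, ∀ h ∈ H, (N + d + h).Coprime g) → (∃ d ∈ A (K - 1), d ≠ 0) →
            κ * choices K A / (K : ℝ) ^ H.card ≤ count g K A fun j => Realises H L (g ^ K) r (N + j)) ∧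
          (count g K A (fun j => ∀ h ∈ H, (N + j + h).Prime) : ℝ) ≤ C * choices K A / (K : ℝ) ^ H.card := by
  classical
  obtain ⟨S, hS⟩ : ∃ S : Finset ℕ, S = (range (L + 1)).filter fun e => e ∉ H ∧ Admissible (insert e H) := ⟨_, rfl⟩
  obtain ⟨c, hc, r0, hr0, h⟩ := uni_gap2 H hH H.card rfl (card_pos.2 h0) E S
    (fun e he => by
      rw [hS, mem_filter] at he
      exact he.2)
  refine ⟨c, hc, r0, hr0, fun r hr g hg => ?_⟩
  obtain ⟨κ, C, hκ, hC, h1⟩ := h r hr g hg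
  refine ⟨κ, C, hκ, hC, ?_⟩
  filter_upwards [h1, eventually_ge_atTop ((H.card + 1) ^ r + H.card + 3)] with K hK hK2
  intro N hN A hA hprod
  obtain ⟨hlow, hup⟩ := hK N hN A hA (by rw [← choices_eq]; exact hprod)
  rw [← choices_eq, ND_eq_count] at hlow hup
  constructor
  · intro hd hd'
    refine (hlow hd hd').trans (Nat.cast_le.2 ?_)
    refine count_mono fun j hn1 hj => ?_
    obtain ⟨⟨hn3, hn4⟩, hn5⟩ := hj
    refine ⟨fun h hh => ⟨(hn4.2 h hh).1, (hn4.2 h hh).2⟩, fun e he heH hp => ?_⟩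
    by_cases hadm : Admissible (insert e H)
    · exact hn5 e (by
        rw [hS, mem_filter, mem_range]
        exact ⟨by omega, heH, hadm⟩) hp
    · unfold Admissible at hadm
      push Not at hadm
      obtain ⟨p, hpp, hcov⟩ := hadm
      have hpc : p ≤ H.card + 1 := (le_card hpp hcov).trans (card_insert_le e H)
      obtain ⟨e', he', hdvd⟩ := hcov (N + j)
      have hKg : K < g ^ K := Nat.lt_pow_self (by omega)
      have h6 : p ^ r ≤ (H.card + 1) ^ r := Nat.pow_le_pow_left hpc r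
      rw [mem_insert] at he'
      rcases he' with rfl | he'
      · have h5 := hp p hpp hdvd
        omega
      · have h5 := (hn4.2 e' he').1 p hpp hdvd
        omega
  · refine le_trans (Nat.cast_le.2 ?_) hup
    refine count_mono fun j hn1 hn3 => ?_
    intro h hh p hp hpd
    have h5 : j ≤ p := by
      rw [(Nat.prime_dvd_prime_iff_eq hp (hn3 h hh)).1 hpd]
      omega
    exact lt_of_le_of_lt h5 (lt_self_pow₀ hp.one_lt (by omega))

end Pool.Agent.Q45.Tup.Dig
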