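import Pool.Agent.Q45.Tup.AP

/-!
# Rough (or prime) progressions of length `k` with a short difference: two-dimensional arrays
-/

set_option autoImplicit false

open Finset Filter

namespace Pool.Agent.Q45.Tup

open Pool.Agent.Y843.HS (Pr VV Pr_mem Pr_prime)
open Pool.Agent.Y843.HG (V1 V1_bounds V1_pos fac1)

/-! ### mean values -/

lemma one_le_prod' {s : Finset ℕ} {f : ℕ → ℝ} (h : ∀ i ∈ s, 1 ≤ f i) : 1 ≤ ∏ i ∈ s, f i := by
  classical
  induction s using Finset.induction_on with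
  | empty => simp
  | insert a s ha ih =>
    rw [prod_insert ha]
    have h1 := h a (mem_insert_self _ _)
    have h2 := ih (fun i hi => h i (mem_insert_of_mem hi))
    nlinarith

lemma pow_le_lin (k : ℕ) (x : ℝ) (h0 : 0 ≤ x) (h1 : x ≤ 1 / 2) : (1 + 2 * x) ^ k ≤ 1 + 4 ^ k * x := by
  induction k with
  | zero => simp; linarith
  | succ k ih =>
    have h4 : (1 : ℝ) ≤ 4 ^ k := one_le_pow₀ (by norm_num)
    calc (1 + 2 * x) ^ (k + 1) = (1 + 2 * x) ^ k * (1 + 2 * x) := pow_succ _ _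
      _ ≤ (1 + 4 ^ k * x) * (1 + 2 * x) := mul_le_mul_of_nonneg_right ih (by linarith)
      _ = 1 + x * (2 + 4 ^ k) + x * (2 * 4 ^ k * x) := by ring
      _ ≤ 1 + x * (2 + 4 ^ k) + x * (4 ^ k) := by
          have : 2 * 4 ^ k * x ≤ (4 : ℝ) ^ k := by nlinarith
          have := mul_le_mul_of_nonneg_left this h0
          linarith
      _ ≤ 1 + 4 ^ (k + 1) * x := by
          rw [pow_succ]
          nlinarith

lemma inv_le_lin (k p : ℕ) (hp : p.Prime) : ((1 - 1 / (p : ℝ)) ^ k)⁻¹ ≤ 1 + (4 ^ k : ℕ) / (p : ℝ) := by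
  have hp2 : (2 : ℝ) ≤ p := by exact_mod_cast hp.two_le
  have hx0 : 0 ≤ 1 / (p : ℝ) := by positivity
  have hx1 : 1 / (p : ℝ) ≤ 1 / 2 := one_div_le_one_div_of_le (by norm_num) hp2
  have h1 : (1 - 1 / (p : ℝ))⁻¹ ≤ 1 + 2 * (1 / (p : ℝ)) := by
    rw [inv_le_iff_one_le_mul₀ (by linarith)]
    nlinarith
  calc ((1 - 1 / (p : ℝ)) ^ k)⁻¹ = ((1 - 1 / (p : ℝ))⁻¹) ^ k := (inv_pow _ _).symm
    _ ≤ (1 + 2 * (1 / (p : ℝ))) ^ k := pow_le_pow_left₀ (inv_nonneg.2 (by linarith)) h1 k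
    _ ≤ 1 + 4 ^ k * (1 / (p : ℝ)) := pow_le_lin k _ hx0 hx1
    _ = _ := by push_cast; ring

/-- the mean value of `∏ p ∣ d, (1 - 1 / p) ^ (- k)` is bounded -/
theorem mean_bound (k : ℕ) : ∃ C : ℝ, 0 < C ∧ ∃ N₀ : ℕ, ∀ N : ℕ, N₀ ≤ N →
    ∑ d ∈ Ico 1 N, ∏ p ∈ d.primeFactors, ((1 - 1 / (p : ℝ)) ^ k)⁻¹ ≤ C * N := by
  classical
  obtain ⟨s₀, B₀, X₀, h⟩ := Pool.Agent.Y79.HS.gav 1 (4 ^ k) 1 one_pos
  have hlog : ∀ᶠ N : ℕ in atTop, Real.log N ^ B₀ ≤ N := by
    have h3 := isLittleO_log_rpow_rpow_atTop (s := 1) (B₀ : ℝ) one_pos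
    have h4 := (h3.bound one_pos)
    have h5 := tendsto_natCast_atTop_atTop.eventually h4
    filter_upwards [h5, eventually_ge_atTop 1] with N hN hN1
    have hl : 0 ≤ Real.log N := Real.log_natCast_nonneg N
    rw [Real.rpow_natCast, Real.rpow_one, one_mul, Real.norm_of_nonneg (by positivity),
      Real.norm_of_nonneg (by positivity)] at hN
    exact hN
  obtain ⟨N₁, hN₁⟩ := eventually_atTop.1 hlog
  set s := s₀ with hs
  have hfac : ∀ p : ℕ, p.Prime → (1 : ℝ) ≤ 1 + ((4 ^ k : ℕ) : ℝ) / p := fun p _ => by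
    have : (0 : ℝ) ≤ ((4 ^ k : ℕ) : ℝ) / p := by positivity
    linarith
  set P : ℝ := ∏ p ∈ Pr 0 s, (1 + ((4 ^ k : ℕ) : ℝ) / p) with hP
  have hP1 : 1 ≤ P := by
    rw [hP]
    exact one_le_prod' (fun p hp => hfac p (Pr_prime hp))
  refine ⟨P * 3, by linarith, max X₀ (max N₁ 1), fun N hN => ?_⟩
  have hX0 : X₀ ≤ N := (le_max_left _ _).trans hN
  have hNl := hN₁ N ((le_max_left _ _).trans ((le_max_right _ _).trans hN))
  have hN1 : 1 ≤ N := (le_max_right _ _).trans ((le_max_right _ _).trans hN)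
  have hN0 : (0 : ℝ) < N := by exact_mod_cast hN1
  have h1 := h s N N N le_rfl hX0 le_rfl hNl (fun _ => {0}) (fun p hp => ⟨by simp, fun c hc => by
    rw [mem_singleton] at hc
    rw [hc]
    exact (Pr_prime hp).pos⟩)
  rw [div_le_one hN0] at h1
  have hG : ∀ d : ℤ, 1 ≤ Pool.Agent.Y843.HS.Gd (4 ^ k) (fun _ => {0}) s N d := by
    intro d
    unfold Pool.Agent.Y843.HS.Gd
    exact one_le_prod' (fun p hp => hfac p (Pr_prime (mem_filter.1 hp).1))
  -- compare
  have h2 : ∀ d ∈ Ico 1 N, ∏ p ∈ d.primeFactors, ((1 - 1 / (p : ℝ)) ^ k)⁻¹ ≤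
      P * Pool.Agent.Y843.HS.Gd (4 ^ k) (fun _ => {0}) s N (d : ℤ) := by
    intro d hd
    rw [mem_Ico] at hd
    have h3 : ∏ p ∈ d.primeFactors, ((1 - 1 / (p : ℝ)) ^ k)⁻¹ ≤
        ∏ p ∈ d.primeFactors, (1 + ((4 ^ k : ℕ) : ℝ) / p) := by
      apply Finset.prod_le_prod
      · intro p hp
        have := fac1 (Nat.prime_of_mem_primeFactors hp)
        have hpos : 0 < 1 - 1 / (p : ℝ) := by linarith
        positivity
      · intro p hp
        exact inv_le_lin k p (Nat.prime_of_mem_primeFactors hp)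
    refine h3.trans ?_
    rw [← prod_filter_mul_prod_filter_not d.primeFactors (fun p => p ≤ s)]
    apply mul_le_mul
    · rw [hP]
      apply prod_le_prod_of_subset_of_one_le
      · intro p hp
        rw [mem_filter] at hp
        rw [Pr_mem]
        have := Nat.prime_of_mem_primeFactors hp.1
        exact ⟨⟨this.pos, hp.2⟩, this⟩
      · intro p hp
        exact zero_le_one.trans (hfac p (Nat.prime_of_mem_primeFactors (mem_filter.1 hp).1))
      · intro p hp _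
        exact hfac p (Pr_prime hp)
    · unfold Pool.Agent.Y843.HS.Gd
      apply prod_le_prod_of_subset_of_one_le
      · intro p hp
        rw [mem_filter] at hp
        have hpp := Nat.prime_of_mem_primeFactors hp.1
        have hpd := Nat.dvd_of_mem_primeFactors hp.1
        rw [mem_filter, Pr_mem]
        refine ⟨⟨⟨by omega, ?_⟩, hpp⟩, 0, by simp, 0, by simp, ?_⟩
        · have := Nat.le_of_dvd (by omega) hpd
          omega
        · simp only [Nat.cast_zero, sub_zero]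
          exact_mod_cast hpd
      · intro p hp
        exact zero_le_one.trans (hfac p (Nat.prime_of_mem_primeFactors (mem_filter.1 hp).1))
      · intro p hp _
        exact hfac p (Pr_prime (mem_filter.1 hp).1)
    · exact prod_nonneg (fun p hp => zero_le_one.trans (hfac p (Nat.prime_of_mem_primeFactors (mem_filter.1 hp).1)))
    · linarith
  have h3 : ∑ d ∈ Ico 1 N, (Pool.Agent.Y843.HS.Gd (4 ^ k) (fun _ => {0}) s N (d : ℤ) - 1) ≤ N := by
    refine le_trans ?_ h1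
    have h4 : ∑ d ∈ Ico 1 N, (Pool.Agent.Y843.HS.Gd (4 ^ k) (fun _ => {0}) s N (d : ℤ) - 1) =
        ∑ h ∈ (Ico 1 N).image (fun d : ℕ => (d : ℤ)), (Pool.Agent.Y843.HS.Gd (4 ^ k) (fun _ => {0}) s N h - 1) := by
      rw [sum_image]
      intro a _ b _ hab
      exact_mod_cast (show (a : ℤ) = b from hab)
    rw [h4]
    apply sum_le_sum_of_subset_of_nonneg
    · intro h hh
      rw [mem_image] at hh
      obtain ⟨d, hd, rfl⟩ := hh
      rw [mem_Ico] at hd
      rw [mem_Ioo]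
      omega
    · intro h _ _
      linarith [hG h]
  have h5 : ∑ d ∈ Ico 1 N, Pool.Agent.Y843.HS.Gd (4 ^ k) (fun _ => {0}) s N (d : ℤ) ≤ 2 * N := by
    rw [sum_sub_distrib, sum_const, nsmul_eq_mul, mul_one, Nat.card_Ico] at h3
    have h6 : ((N - 1 : ℕ) : ℝ) ≤ N := by exact_mod_cast Nat.sub_le _ _
    linarith
  calc ∑ d ∈ Ico 1 N, ∏ p ∈ d.primeFactors, ((1 - 1 / (p : ℝ)) ^ k)⁻¹
      ≤ ∑ d ∈ Ico 1 N, P * Pool.Agent.Y843.HS.Gd (4 ^ k) (fun _ => {0}) s N (d : ℤ) := sum_le_sum h2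
    _ = P * ∑ d ∈ Ico 1 N, Pool.Agent.Y843.HS.Gd (4 ^ k) (fun _ => {0}) s N (d : ℤ) := by rw [mul_sum]
    _ ≤ P * (2 * N) := mul_le_mul_of_nonneg_left h5 (by linarith)
    _ ≤ P * 3 * N := by nlinarith

/-! ### the progressions `n, n + d, …, n + (k - 1) d` -/

/-- the pattern `0, d, …, (k - 1) d` -/
def HP (k d : ℕ) : Finset ℕ := (range k).image (fun i => i * d)

lemma HP_card_le (k d : ℕ) : (HP k d).card ≤ k := by
  unfold HP
  exact card_image_le.trans (card_range k).le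

/-- classes for a prime which does not divide `d` -/
lemma Z_HP_card {k d q : ℕ} (hq : q.Prime) (hd : ¬ q ∣ d) (hk : k ≤ q) : (Z (HP k d) q).card = k := by
  unfold Z HP
  rw [image_image, card_image_of_injOn, card_range]
  intro i hi j hj hij
  rw [mem_coe, mem_range] at hi hj
  simp only [Function.comp] at hij
  -- both sides: q ∣ x + i d and q ∣ x + j d
  have h1 : ∀ t : ℕ, q ∣ (q - t % q) % q + t := by
    intro t
    have e2 : q - t % q + t = q + q * (t / q) := by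
      have := Nat.div_add_mod t q
      have := Nat.mod_lt t hq.pos
      omega
    have h3 : ((q - t % q) % q + t) % q = 0 := by
      rw [Nat.mod_add_mod, e2]
      exact Nat.mod_eq_zero_of_dvd ⟨1 + t / q, by ring⟩
    exact Nat.dvd_of_mod_eq_zero h3
  have hi1 := h1 (i * d)
  have hj1 := h1 (j * d)
  rw [← hij] at hj1
  have h2 : (q : ℤ) ∣ ((i : ℤ) - j) * d := by
    have a1 : (q : ℤ) ∣ (((q - i * d % q) % q + i * d : ℕ) : ℤ) := by exact_mod_cast hi1
    have a2 : (q : ℤ) ∣ (((q - i * d % q) % q + j * d : ℕ) : ℤ) := by exact_mod_cast hj1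
    have a3 := dvd_sub a1 a2
    push_cast at a3
    have e : ((i : ℤ) - j) * d = (i : ℤ) * d - j * d := by ring
    rw [e]
    have e3 : ∀ x : ℤ, (x + (i : ℤ) * d) - (x + (j : ℤ) * d) = (i : ℤ) * d - j * d := fun x => by ring
    rwa [e3] at a3
  have h3 : (q : ℤ) ∣ (i : ℤ) - j := by
    rcases (Nat.prime_iff_prime_int.1 hq).dvd_or_dvd h2 with h | h
    · exact h
    · exact absurd (by exact_mod_cast h) hd
  have h4 := Int.eq_zero_of_abs_lt_dvd h3 (by rw [abs_lt]; constructor <;> omega)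
  omega

lemma Z_HP_dvd {k d q : ℕ} (hq : q.Prime) (hd : q ∣ d) (hk : 1 ≤ k) : (Z (HP k d) q).card = 1 := by
  have h1 : Z (HP k d) q = {0} := by
    unfold Z HP
    rw [image_image]
    ext c
    rw [mem_image, mem_singleton]
    constructor
    · rintro ⟨i, _, rfl⟩
      simp only [Function.comp]
      rw [Nat.mod_eq_zero_of_dvd (hd.mul_left i), Nat.sub_zero, Nat.mod_self]
    · rintro rfl
      refine ⟨0, mem_range.2 hk, ?_⟩
      simp
  rw [h1, card_singleton]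

/-- if `k ≥ 1` and all primes `≤ k` divide `d` the pattern is admissible -/
lemma adm_HP {k d : ℕ} (hd : ∀ q : ℕ, q.Prime → q ≤ k → q ∣ d) (q : ℕ) (hq : q.Prime) :
    ∃ m : ℕ, ∀ h ∈ HP k d, ¬ q ∣ m + h := by
  by_cases h : q ≤ k
  · refine ⟨1, fun x hx => ?_⟩
    unfold HP at hx
    rw [mem_image] at hx
    obtain ⟨i, _, rfl⟩ := hx
    intro h1
    have h2 := (Nat.dvd_add_left ((hd q hq h).mul_left i)).1 h1
    exact hq.one_lt.ne' (Nat.dvd_one.1 h2)
  · by_contra hcon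
    push Not at hcon
    have h1 := Z_card_le (H := HP k d) (q := q) hq.pos hcon
    have h3 := HP_card_le k d
    omega

/-- the sieve product -/
lemma VV_HP (k : ℕ) (hk : 1 ≤ k) : ∃ C : ℝ, 0 < C ∧ ∀ d y : ℕ, 0 < d →
    VV (Z (HP k d)) 0 y ≤ C * V1 y ^ k * ∏ p ∈ d.primeFactors, ((1 - 1 / (p : ℝ)) ^ k)⁻¹ := by
  classical
  have hVk := V1_pos k
  refine ⟨(V1 k ^ k)⁻¹, by positivity, fun d y hd => ?_⟩
  have hfac : ∀ p ∈ Pr 0 y, 0 ≤ 1 - ((Z (HP k d) p).card : ℝ) / p := fun p hp =>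
    Pool.Agent.Y843.HS.one_sub_nonneg (fun c hc => Z_lt (Pr_prime hp).pos hc)
  have hone : ∀ p : ℕ, p.Prime → (1 : ℝ) ≤ ((1 - 1 / (p : ℝ)) ^ k)⁻¹ := fun p hp => by
    obtain ⟨hf1, hf2⟩ := fac1 hp
    have hpos : 0 < 1 - 1 / (p : ℝ) := by linarith
    rw [one_le_inv₀ (by positivity)]
    exact pow_le_one₀ hpos.le hf2
  have hle : ∀ p ∈ Pr 0 y, 1 - ((Z (HP k d) p).card : ℝ) / p ≤
      (1 - 1 / (p : ℝ)) ^ k * (if p ≤ k then ((1 - 1 / (p : ℝ)) ^ k)⁻¹ else 1) *
        (if p ∣ d then ((1 - 1 / (p : ℝ)) ^ k)⁻¹ else 1) := by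
    intro p hp
    have hp' := Pr_prime hp
    obtain ⟨hf1, hf2⟩ := fac1 hp'
    have hpos : 0 < 1 - 1 / (p : ℝ) := by linarith
    have hle1 : 1 - ((Z (HP k d) p).card : ℝ) / p ≤ 1 := by
      have : (0 : ℝ) ≤ ((Z (HP k d) p).card : ℝ) / p := by positivity
      linarith
    have h1 := hone p hp'
    have hpk : 0 < (1 - 1 / (p : ℝ)) ^ k := by positivity
    split_ifs with h2 h3 h3
    · rw [mul_inv_cancel₀ hpk.ne', one_mul]
      exact hle1.trans h1
    · rw [mul_inv_cancel₀ hpk.ne', one_mul]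
      exact hle1
    · rw [mul_one, mul_inv_cancel₀ hpk.ne']
      exact hle1
    · rw [mul_one, mul_one, Z_HP_card hp' h3 (by omega)]
      have h1 := one_add_mul_le_pow (a := -(1 / (p : ℝ))) (by linarith) k
      calc 1 - (k : ℝ) / p = 1 + (k : ℝ) * -(1 / (p : ℝ)) := by ring
        _ ≤ (1 + -(1 / (p : ℝ))) ^ k := h1
        _ = _ := by ring
  have h1 := prod_le_prod hfac hle
  rw [prod_mul_distrib, prod_mul_distrib, prod_pow] at h1
  have h2 : ∏ p ∈ Pr 0 y, (if p ≤ k then ((1 - 1 / (p : ℝ)) ^ k)⁻¹ else 1) ≤ (V1 k ^ k)⁻¹ := by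
    rw [← prod_filter]
    unfold V1
    rw [← prod_pow, ← prod_inv_distrib]
    apply prod_le_prod_of_subset_of_one_le
    · intro p hp
      rw [mem_filter, Pr_mem] at hp
      rw [Pr_mem]
      exact ⟨⟨hp.1.1.1, hp.2⟩, hp.1.2⟩
    · intro p hp
      exact zero_le_one.trans (hone p (Pr_prime (mem_filter.1 hp).1))
    · intro p hp _
      exact hone p (Pr_prime hp)
  have h3 : ∏ p ∈ Pr 0 y, (if p ∣ d then ((1 - 1 / (p : ℝ)) ^ k)⁻¹ else 1) ≤
      ∏ p ∈ d.primeFactors, ((1 - 1 / (p : ℝ)) ^ k)⁻¹ := by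
    rw [← prod_filter]
    apply prod_le_prod_of_subset_of_one_le
    · intro p hp
      rw [mem_filter, Pr_mem] at hp
      exact Nat.mem_primeFactors.2 ⟨hp.1.2, hp.2, hd.ne'⟩
    · intro p hp
      exact zero_le_one.trans (hone p (Pr_prime (mem_filter.1 hp).1))
    · intro p hp _
      exact hone p (Nat.prime_of_mem_primeFactors hp)
  have hV1 : 0 ≤ V1 y ^ k := (pow_pos (V1_pos y) k).le
  have h30 : 0 ≤ ∏ p ∈ Pr 0 y, (if p ∣ d then ((1 - 1 / (p : ℝ)) ^ k)⁻¹ else 1) :=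
    prod_nonneg (fun p hp => by
      split_ifs
      · exact zero_le_one.trans (hone p (Pr_prime hp))
      · exact zero_le_one)
  calc VV (Z (HP k d)) 0 y ≤ _ := h1
    _ ≤ V1 y ^ k * (V1 k ^ k)⁻¹ * ∏ p ∈ d.primeFactors, ((1 - 1 / (p : ℝ)) ^ k)⁻¹ :=
        mul_le_mul (mul_le_mul_of_nonneg_left h2 hV1) h3 h30 (by positivity)
    _ = _ := by ring

/-- `n, n + d, …, n + (k - 1) d` have no prime factor `≤ y` -/
def RoughRun (y : ℝ) (k d n : ℕ) : Prop := ∀ i < k, ∀ q : ℕ, q.Prime → q ∣ n + i * d → y < q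

/-- all primes `≤ k` divide the difference of a rough progression of length `k` -/
lemma RoughRun.dvd {y : ℝ} {k d n : ℕ} (h : RoughRun y k d n) (hy : (k : ℝ) ≤ y) (q : ℕ) (hq : q.Prime)
    (hqk : q ≤ k) : q ∣ d := by
  by_contra hcon
  have h1 : ∃ i < q, q ∣ n + i * d := by
    have hf : Fact q.Prime := ⟨hq⟩
    have hd0 : (d : ZMod q) ≠ 0 := fun h0 => hcon ((ZMod.natCast_eq_zero_iff _ _).1 h0)
    refine ⟨(-(n : ZMod q) / d).val, ZMod.val_lt _, ?_⟩
    rw [← ZMod.natCast_eq_zero_iff]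
    push_cast
    rw [ZMod.natCast_zmod_val]
    field_simp
    ring
  obtain ⟨i, hi, hd⟩ := h1
  have h2 := h i (by omega) q hq hd
  have : (q : ℝ) ≤ k := by exact_mod_cast hqk
  linarith

/-- `(n, d)` is a term of a narrow progression `(a, d), (a + r, d), …` of elements of `S` -/
def OnAP2 (l : ℕ) (D : ℝ) (S : Finset (ℕ × ℕ)) (x : ℕ × ℕ) : Prop :=
  ∃ a r : ℕ, 1 ≤ r ∧ (r : ℝ) ≤ D ∧ (∀ j < l, (a + j * r, x.2) ∈ S) ∧ ∃ j < l, x.1 = a + j * r

open Classical in
/-- **Rough progressions with short differences.** -/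
theorem runs (k l : ℕ) (hk : 1 ≤ k) (hl : 1 ≤ l) (κ δ C : ℝ) (hκ : 0 < κ) (hδ : 0 < δ) (hC : 0 < C) :
    ∃ D X₀ : ℕ, ∀ X : ℕ, X₀ ≤ X → ∀ A : ℕ, ∀ S : Finset (ℕ × ℕ),
      (∀ x ∈ S, A < x.1 ∧ x.1 ≤ A + X ∧ 0 < x.2 ∧ (x.2 : ℝ) ≤ C * Real.log X ∧ RoughRun ((X : ℝ) ^ κ) k x.2 x.1) →
      ((S.filter (fun x => ¬ OnAP2 l (Real.log X ^ D) S x)).card : ℝ) ≤ δ * (X / Real.log X ^ (k - 1)) := by
  obtain ⟨C1, hC1, N₀, hmean⟩ := mean_bound k
  obtain ⟨C2, hC2, hVV⟩ := VV_HP k hk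
  obtain ⟨C3, hC3, X₁, hV1⟩ := V1_floor κ hκ
  set η : ℝ := δ / (C2 * C3 ^ k * (C1 * (2 * C))) with hη
  have hη0 : 0 < η := by rw [hη]; positivity
  obtain ⟨D, X₂, hU⟩ := unif l k hl κ η hκ hη0
  have hlogt : Tendsto (fun X : ℕ => C * Real.log X) atTop atTop :=
    (Real.tendsto_log_atTop.comp tendsto_natCast_atTop_atTop).const_mul_atTop hC
  obtain ⟨X₃, h3⟩ := eventually_atTop.1 (hlogt.eventually (eventually_ge_atTop (max 2 (N₀ : ℝ))))
  have hXk : Tendsto (fun X : ℕ => (X : ℝ) ^ κ) atTop atTop :=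
    (tendsto_rpow_atTop hκ).comp tendsto_natCast_atTop_atTop
  obtain ⟨X₄, h4⟩ := eventually_atTop.1 (hXk.eventually (eventually_ge_atTop (k : ℝ)))
  refine ⟨D, max (max X₁ X₂) (max (max X₃ X₄) 2), fun X hX A S hS => ?_⟩
  have hX1 : X₁ ≤ X := (le_max_left _ _).trans ((le_max_left _ _).trans hX)
  have hX2 : X₂ ≤ X := (le_max_right _ _).trans ((le_max_left _ _).trans hX)
  have hX34 : max (max X₃ X₄) 2 ≤ X := (le_max_right _ _).trans hX
  have hX3 := h3 X ((le_max_left _ _).trans ((le_max_left _ _).trans hX34))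
  have hX4 := h4 X ((le_max_right _ _).trans ((le_max_left _ _).trans hX34))
  have hX5 : 2 ≤ X := (le_max_right _ _).trans hX34
  have hlX : 0 < Real.log X := Real.log_pos (by exact_mod_cast (by omega : 1 < X))
  have hX0 : (0 : ℝ) < X := by exact_mod_cast (by omega : 0 < X)
  set N := ⌊C * Real.log X⌋₊ + 1 with hN
  have hN0 : N₀ ≤ N := by
    have : (N₀ : ℝ) ≤ C * Real.log X := (le_max_right _ _).trans hX3
    have := Nat.le_floor this
    omega
  have hNle : (N : ℝ) ≤ 2 * C * Real.log X := by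
    have h2 : (2 : ℝ) ≤ C * Real.log X := (le_max_left _ _).trans hX3
    have := Nat.floor_le (show 0 ≤ C * Real.log X by positivity)
    rw [hN]
    push_cast
    linarith
  have hm := hmean N hN0
  -- the bad pairs with the difference `d`
  set W := S.filter (fun x => ¬ OnAP2 l (Real.log X ^ D) S x) with hW
  have hd : ∀ d ∈ Ico 1 N, ((W.filter (fun x => x.2 = d)).card : ℝ) ≤
      η * X * (C2 * (C3 / Real.log X) ^ k * ∏ p ∈ d.primeFactors, ((1 - 1 / (p : ℝ)) ^ k)⁻¹) := by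
    intro d hd
    rw [mem_Ico] at hd
    by_cases hemp : (W.filter (fun x => x.2 = d)) = ∅
    · rw [hemp, card_empty, Nat.cast_zero]
      have : 0 ≤ ∏ p ∈ d.primeFactors, ((1 - 1 / (p : ℝ)) ^ k)⁻¹ := prod_nonneg (fun p hp => by
        have := fac1 (Nat.prime_of_mem_primeFactors hp)
        have hpos : 0 < 1 - 1 / (p : ℝ) := by linarith
        positivity)
      positivity
    · obtain ⟨x0, hx0⟩ := nonempty_iff_ne_empty.2 hemp
      rw [mem_filter, hW, mem_filter] at hx0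
      have hadm : ∀ q : ℕ, q.Prime → q ≤ k → q ∣ d := by
        intro q hq hqk
        rw [← hx0.2]
        exact (hS x0 hx0.1.1).2.2.2.2.dvd hX4 q hq hqk
      set Sd : Finset ℕ := (S.filter (fun x => x.2 = d)).image Prod.fst with hSd
      have h5 := hU X hX2 A (HP k d) (HP_card_le k d) (adm_HP hadm) Sd (by
        intro n hn
        rw [hSd, mem_image] at hn
        obtain ⟨x, hx, rfl⟩ := hn
        rw [mem_filter] at hx
        obtain ⟨g1, g2, g3, g4, g5⟩ := hS x hx.1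
        refine ⟨g1, g2, fun h hh q hq hqX hdv => ?_⟩
        unfold HP at hh
        rw [mem_image] at hh
        obtain ⟨i, hi, rfl⟩ := hh
        rw [← hx.2] at hdv
        have := g5 i (mem_range.1 hi) q hq hdv
        linarith)
      have h6 : ((W.filter (fun x => x.2 = d)).card : ℝ) ≤
          (Set.ncard {n : ℕ | n ∈ Sd ∧ ¬ OnAP l (Real.log X ^ D) Sd n} : ℝ) := by
        have h7 : (W.filter (fun x => x.2 = d)).card = ((W.filter (fun x => x.2 = d)).image Prod.fst).card := by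
          rw [card_image_of_injOn]
          intro x hx y hy hxy
          rw [mem_coe, mem_filter] at hx hy
          exact Prod.ext hxy (hx.2.trans hy.2.symm)
        rw [h7, ← Set.ncard_coe_finset]
        refine Nat.cast_le.2 (Set.ncard_le_ncard ?_ (Sd.finite_toSet.subset (fun n hn => hn.1)))
        intro n hn
        rw [mem_coe, mem_image] at hn
        obtain ⟨x, hx, rfl⟩ := hn
        rw [mem_filter, hW, mem_filter] at hx
        obtain ⟨⟨hx1, hx2⟩, hx3⟩ := hx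
        refine ⟨mem_image.2 ⟨x, mem_filter.2 ⟨hx1, hx3⟩, rfl⟩, ?_⟩
        rintro ⟨a, r, hr1, hr2, hr3, hr4⟩
        refine hx2 ⟨a, r, hr1, hr2, fun j hj => ?_, hr4⟩
        have h8 := hr3 j hj
        rw [hSd, mem_image] at h8
        obtain ⟨y, hy, hy1⟩ := h8
        rw [mem_filter] at hy
        have : y = (a + j * r, x.2) := Prod.ext hy1 (hy.2.trans hx3.symm)
        rw [← this]
        exact hy.1
      refine h6.trans (h5.trans ?_)
      apply mul_le_mul_of_nonneg_left _ (by positivity)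
      refine (hVV d _ hd.1).trans ?_
      have h9 : 0 ≤ ∏ p ∈ d.primeFactors, ((1 - 1 / (p : ℝ)) ^ k)⁻¹ := prod_nonneg (fun p hp => by
        have := fac1 (Nat.prime_of_mem_primeFactors hp)
        have hpos : 0 < 1 - 1 / (p : ℝ) := by linarith
        positivity)
      apply mul_le_mul_of_nonneg_right _ h9
      exact mul_le_mul_of_nonneg_left (pow_le_pow_left₀ (V1_pos _).le (hV1 X hX1) k) hC2.le
  have hcard : (W.card : ℝ) = ∑ d ∈ Ico 1 N, ((W.filter (fun x => x.2 = d)).card : ℝ) := by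
    have h1 := card_eq_sum_card_fiberwise (s := W) (t := Ico 1 N) (f := Prod.snd) (by
      intro x hx
      rw [mem_coe, hW, mem_filter] at hx
      obtain ⟨g1, g2, g3, g4, g5⟩ := hS x hx.1
      rw [coe_Ico, Set.mem_Ico]
      refine ⟨g3, ?_⟩
      have := Nat.le_floor g4
      omega)
    exact_mod_cast h1
  rw [hcard]
  refine (sum_le_sum hd).trans ?_
  rw [← mul_sum, ← mul_sum]
  have h10 : η * X * (C2 * (C3 / Real.log X) ^ k * ∑ d ∈ Ico 1 N, ∏ p ∈ d.primeFactors, ((1 - 1 / (p : ℝ)) ^ k)⁻¹) ≤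
      η * X * (C2 * (C3 / Real.log X) ^ k * (C1 * (2 * C * Real.log X))) := by
    apply mul_le_mul_of_nonneg_left _ (by positivity)
    apply mul_le_mul_of_nonneg_left _ (by positivity)
    exact hm.trans (mul_le_mul_of_nonneg_left hNle hC1.le)
  refine h10.trans (le_of_eq ?_)
  obtain ⟨m, rfl⟩ : ∃ m, k = m + 1 := ⟨k - 1, by omega⟩
  rw [Nat.add_sub_cancel, div_pow, pow_succ (Real.log X) m, hη]
  field_simp

end Pool.Agent.Q45.Tup
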